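import Pool.Agent.H92.GaborOrbit2

set_option autoImplicit false
open MeasureTheory
open scoped InnerProductSpace

namespace Pool.Agent.Results.MP_6c6e33_an.Unbounded

/-- the Hilbert space `L²(ℝ)` -/
noncomputable abbrev L2 := Lp ℂ 2 (volume : Measure ℝ)

/-- `G (m, n) = E_{mb} T_{na} g` -/
def IsGabor (a b : ℝ) (g : L2) (G : ℤ × ℤ → L2) : Prop :=
  ∀ m n : ℤ, G (m, n) =ᵐ[volume]
    fun x : ℝ => Complex.exp (2 * Real.pi * Complex.I * (m * b * x)) * g (x - n * a)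

variable {H : Type} [NormedAddCommGroup H] [InnerProductSpace ℂ H]

/-- `G` is a frame of `H` -/
def IsFrame (G : ℤ × ℤ → H) : Prop :=
  ∃ A B : ℝ, 0 < A ∧ 0 < B ∧ ∀ f : H,
    Summable (fun l => ‖⟪f, G l⟫_ℂ‖ ^ 2) ∧ A * ‖f‖ ^ 2 ≤ ∑' l, ‖⟪f, G l⟫_ℂ‖ ^ 2 ∧
      ∑' l, ‖⟪f, G l⟫_ℂ‖ ^ 2 ≤ B * ‖f‖ ^ 2

/-- `G` is a Riesz basis of `H`: a complete Riesz sequence -/
def IsRieszBasis (G : ℤ × ℤ → H) : Prop :=
  Dense (Submodule.span ℂ (Set.range G) : Set H) ∧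
    ∃ A B : ℝ, 0 < A ∧ 0 < B ∧ ∀ (s : Finset (ℤ × ℤ)) (c : ℤ × ℤ → ℂ),
      A * ∑ l ∈ s, ‖c l‖ ^ 2 ≤ ‖∑ l ∈ s, c l • G l‖ ^ 2 ∧
      ‖∑ l ∈ s, c l • G l‖ ^ 2 ≤ B * ∑ l ∈ s, ‖c l‖ ^ 2

/-- there is a bounded linear operator `T : V → H` with `T f_k = f_{k+1}` -/
def BoundedShiftOn {I : Type} [Add I] [One I] (V : Submodule ℂ H) (f : I → H) : Prop :=
  ∃ T : V →L[ℂ] H, ∀ (k : I) (h : f k ∈ V), T ⟨f k, h⟩ = f (k + 1)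

/-- some ordering of `G` by `I` has a bounded representation -/
def BoundedRep (I : Type) [Add I] [One I] (G : ℤ × ℤ → H) : Prop :=
  ∃ σ : I ≃ ℤ × ℤ, BoundedShiftOn (Submodule.span ℂ (Set.range G)) (fun k : I => G (σ k))

theorem result (a b : ℝ) (_ha : 0 < a) (_hb : 0 < b) (g : L2) (G : ℤ × ℤ → L2)
    (hG : IsGabor a b g G) (hframe : IsFrame G) (hover : ¬ IsRieszBasis G) :
    ¬ BoundedRep ℕ G ∧ ¬ BoundedRep ℤ G := by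
  obtain ⟨A, B, hA, hB, hf⟩ := hframe
  refine ⟨fun ⟨σ, T, hT⟩ => hover ?_, fun ⟨σ, T, hT⟩ => hover ?_⟩
  · obtain ⟨L, hL⟩ := Pool.Agent.H92.GaborOrbit2.main a b g G hG hA hB hf
      (Or.inl ⟨σ, _, T, fun k => ⟨Submodule.subset_span ⟨σ k, rfl⟩, hT k _⟩⟩)
    exact Pool.Agent.H92.GaborOrbit2.riesz_of_equiv G L hL
  · obtain ⟨L, hL⟩ := Pool.Agent.H92.GaborOrbit2.main a b g G hG hA hB hf
      (Or.inr ⟨σ, _, T, fun k => ⟨Submodule.subset_span ⟨σ k, rfl⟩, hT k _⟩⟩)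
    exact Pool.Agent.H92.GaborOrbit2.riesz_of_equiv G L hL

end Pool.Agent.Results.MP_6c6e33_an.Unbounded
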